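import Mathlib

/-! Besicovitch almost periodic functions have a limiting distribution: means of trigonometric polynomials. -/

set_option autoImplicit false

open MeasureTheory Filter Topology Set

namespace Pool.Agent.TH223.AP

/-- mean over `(0, V]` -/
noncomputable def mn (g : ℝ → ℝ) (V : ℝ) : ℝ := (∫ v in (0:ℝ)..V, g v) / V

/-- a trigonometric polynomial -/
noncomputable def trig (K : Finset ℝ) (a : ℝ → ℂ) (v : ℝ) : ℂ :=
  ∑ l ∈ K, a l * Complex.exp (Complex.I * l * v)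

lemma exists_lim_of_approx (F : ℝ → ℝ) (h : ∀ ε : ℝ, 0 < ε → ∃ G : ℝ → ℝ,
    (∃ L : ℝ, Tendsto G atTop (𝓝 L)) ∧ ∀ᶠ V in atTop, |F V - G V| ≤ ε) :
    ∃ L : ℝ, Tendsto F atTop (𝓝 L) := by
  apply cauchySeq_tendsto_of_complete
  rw [Metric.cauchySeq_iff]
  intro ε hε
  obtain ⟨G, ⟨L, hL⟩, hG⟩ := h (ε / 5) (by positivity)
  have h1 := (Metric.tendsto_nhds.1 hL (ε / 5) (by positivity)).and hG
  obtain ⟨N, hN⟩ := eventually_atTop.1 h1
  refine ⟨N, fun m hm n hn => ?_⟩
  obtain ⟨a1, a2⟩ := hN m hm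
  obtain ⟨b1, b2⟩ := hN n hn
  rw [Real.dist_eq] at a1 b1 ⊢
  rw [abs_lt] at a1 b1 ⊢
  rw [abs_le] at a2 b2
  constructor <;> linarith [a1.1, a1.2, b1.1, b1.2, a2.1, a2.2, b2.1, b2.2]

/-- the exponential -/
noncomputable def ex (l v : ℝ) : ℂ := Complex.exp (Complex.I * l * v)

lemma ex_cont (l : ℝ) : Continuous (ex l) := by
  unfold ex
  fun_prop

lemma norm_ex (l v : ℝ) : ‖ex l v‖ = 1 := by
  unfold ex
  rw [Complex.norm_exp]
  simp

lemma mean_ex (l : ℝ) : Tendsto (fun V : ℝ => (∫ v in (0:ℝ)..V, ex l v) / (V : ℂ)) atTop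
    (𝓝 (if l = 0 then 1 else 0)) := by
  by_cases hl : l = 0
  · rw [if_pos hl]
    refine tendsto_const_nhds.congr' ?_
    filter_upwards [eventually_gt_atTop (0:ℝ)] with V hV
    have hV' : (V : ℂ) ≠ 0 := by exact_mod_cast hV.ne'
    simp [ex, hl, hV']
  · rw [if_neg hl, tendsto_zero_iff_norm_tendsto_zero]
    have hc : (Complex.I * l : ℂ) ≠ 0 := by simp [hl]
    have h2 : Tendsto (fun V : ℝ => (2 / ‖(Complex.I * l : ℂ)‖) * V⁻¹) atTop (𝓝 0) := by
      simpa using (tendsto_inv_atTop_zero (𝕜 := ℝ)).const_mul (2 / ‖(Complex.I * l : ℂ)‖)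
    refine squeeze_zero' (Eventually.of_forall fun V => norm_nonneg _) ?_ h2
    filter_upwards [eventually_gt_atTop (0:ℝ)] with V hV
    unfold ex
    rw [integral_exp_mul_complex hc, norm_div, Complex.norm_real, Real.norm_of_nonneg hV.le,
      div_eq_mul_inv]
    gcongr
    rw [norm_div]
    gcongr
    refine (norm_sub_le _ _).trans ?_
    rw [Complex.norm_exp, Complex.norm_exp]
    simp
    norm_num

/-- the submonoid of exponentials -/
noncomputable def exM : Submonoid (ℝ → ℂ) where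
  carrier := Set.range ex
  mul_mem' := by
    rintro _ _ ⟨l, rfl⟩ ⟨m, rfl⟩
    refine ⟨l + m, ?_⟩
    funext v
    simp only [ex, Pi.mul_apply, ← Complex.exp_add]
    push_cast
    ring_nf
  one_mem' := ⟨0, by funext v; simp [ex]⟩

/-- the algebra of trigonometric polynomials -/
noncomputable def TPA : Subalgebra ℂ (ℝ → ℂ) := Algebra.adjoin ℂ (exM : Set (ℝ → ℂ))

lemma TPA_mean {g : ℝ → ℂ} (hg : g ∈ TPA) : Continuous g ∧
    ∃ L : ℂ, Tendsto (fun V : ℝ => (∫ v in (0:ℝ)..V, g v) / (V : ℂ)) atTop (𝓝 L) := by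
  have h1 : g ∈ Submodule.span ℂ (Set.range ex) := by
    have h2 : g ∈ Subalgebra.toSubmodule (Algebra.adjoin ℂ (exM : Set (ℝ → ℂ))) := hg
    rw [Algebra.adjoin_eq_span, Submonoid.closure_eq] at h2
    exact h2
  induction h1 using Submodule.span_induction with
  | mem x hx =>
    obtain ⟨l, rfl⟩ := hx
    exact ⟨ex_cont l, _, mean_ex l⟩
  | zero => exact ⟨continuous_const, 0, by simp⟩
  | add x y _ _ hx hy =>
    have hTPA : ∀ z ∈ Submodule.span ℂ (Set.range ex), z ∈ TPA := by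
      intro z hz
      have h2 : z ∈ Subalgebra.toSubmodule (Algebra.adjoin ℂ (exM : Set (ℝ → ℂ))) := by
        rw [Algebra.adjoin_eq_span, Submonoid.closure_eq]
        exact hz
      exact h2
    obtain ⟨c1, L1, h1⟩ := hx (hTPA _ ‹_›)
    obtain ⟨c2, L2, h2⟩ := hy (hTPA _ ‹_›)
    refine ⟨c1.add c2, L1 + L2, (h1.add h2).congr fun V => ?_⟩
    simp only [Pi.add_apply]
    rw [intervalIntegral.integral_add (c1.intervalIntegrable _ _) (c2.intervalIntegrable _ _),
      add_div]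
  | smul a x _ hx =>
    have hTPA : ∀ z ∈ Submodule.span ℂ (Set.range ex), z ∈ TPA := by
      intro z hz
      have h2 : z ∈ Subalgebra.toSubmodule (Algebra.adjoin ℂ (exM : Set (ℝ → ℂ))) := by
        rw [Algebra.adjoin_eq_span, Submonoid.closure_eq]
        exact hz
      exact h2
    obtain ⟨c1, L1, h1⟩ := hx (hTPA _ ‹_›)
    refine ⟨c1.const_smul a, a * L1, (h1.const_mul a).congr fun V => ?_⟩
    simp only [Pi.smul_apply, smul_eq_mul]
    rw [intervalIntegral.integral_const_mul, mul_div_assoc]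

lemma ex_mem (l : ℝ) : ex l ∈ TPA := Algebra.subset_adjoin ⟨l, rfl⟩

lemma trig_mem (K : Finset ℝ) (a : ℝ → ℂ) : trig K a ∈ TPA := by
  have h : trig K a = ∑ l ∈ K, a l • ex l := by
    funext v
    simp [trig, ex]
  rw [h]
  exact Subalgebra.sum_mem _ fun l _ => Subalgebra.smul_mem _ (ex_mem l) _

lemma trig_conj_mem (K : Finset ℝ) (a : ℝ → ℂ) :
    (fun v => (starRingEnd ℂ) (trig K a v)) ∈ TPA := by
  have h : (fun v => (starRingEnd ℂ) (trig K a v)) =
      ∑ l ∈ K, (starRingEnd ℂ) (a l) • ex (-l) := by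
    funext v
    simp only [trig, map_sum, map_mul, Finset.sum_apply, Pi.smul_apply, smul_eq_mul, ex]
    refine Finset.sum_congr rfl fun l _ => ?_
    rw [← Complex.exp_conj]
    simp
  rw [h]
  exact Subalgebra.sum_mem _ fun l _ => Subalgebra.smul_mem _ (ex_mem _) _

/-- the real part of a trigonometric polynomial -/
noncomputable def rt (K : Finset ℝ) (a : ℝ → ℂ) (v : ℝ) : ℝ := (trig K a v).re

lemma rt_mem (K : Finset ℝ) (a : ℝ → ℂ) : (fun v => ((rt K a v : ℝ) : ℂ)) ∈ TPA := by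
  have h : (fun v => ((rt K a v : ℝ) : ℂ)) =
      (1 / 2 : ℂ) • (trig K a + fun v => (starRingEnd ℂ) (trig K a v)) := by
    funext v
    simp only [rt, Pi.smul_apply, Pi.add_apply, smul_eq_mul]
    rw [Complex.add_conj]
    push_cast
    ring
  rw [h]
  exact Subalgebra.smul_mem _ (Subalgebra.add_mem _ (trig_mem K a) (trig_conj_mem K a)) _

lemma trig_cont (K : Finset ℝ) (a : ℝ → ℂ) : Continuous (trig K a) := by
  unfold trig
  fun_prop

lemma rt_cont (K : Finset ℝ) (a : ℝ → ℂ) : Continuous (rt K a) :=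
  Complex.continuous_re.comp (trig_cont K a)

lemma trig_bound (K : Finset ℝ) (a : ℝ → ℂ) (v : ℝ) : ‖trig K a v‖ ≤ ∑ l ∈ K, ‖a l‖ := by
  unfold trig
  refine norm_sum_le_of_le _ fun l _ => ?_
  rw [norm_mul]
  have := norm_ex l v
  unfold ex at this
  rw [this, mul_one]

lemma rt_bound (K : Finset ℝ) (a : ℝ → ℂ) (v : ℝ) : |rt K a v| ≤ ∑ l ∈ K, ‖a l‖ :=
  (Complex.abs_re_le_norm _).trans (trig_bound K a v)

lemma poly_mem {Q : ℝ → ℝ} (hQ : (fun v => ((Q v : ℝ) : ℂ)) ∈ TPA) (p : Polynomial ℝ) :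
    (fun v => ((p.eval (Q v) : ℝ) : ℂ)) ∈ TPA := by
  induction p using Polynomial.induction_on' with
  | add p q hp hq =>
    have h : (fun v => (((p + q).eval (Q v) : ℝ) : ℂ)) =
        (fun v => ((p.eval (Q v) : ℝ) : ℂ)) + fun v => ((q.eval (Q v) : ℝ) : ℂ) := by
      funext v
      simp
    rw [h]
    exact Subalgebra.add_mem _ hp hq
  | monomial n a =>
    have h : (fun v => (((Polynomial.monomial n a).eval (Q v) : ℝ) : ℂ)) =
        (a : ℂ) • (fun v => ((Q v : ℝ) : ℂ)) ^ n := by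
      funext v
      simp
    rw [h]
    exact Subalgebra.smul_mem _ (Subalgebra.pow_mem _ hQ n) _

lemma mean_real {g : ℝ → ℝ} (hg : (fun v => ((g v : ℝ) : ℂ)) ∈ TPA) :
    ∃ L : ℝ, Tendsto (mn g) atTop (𝓝 L) := by
  obtain ⟨-, L, hL⟩ := TPA_mean hg
  refine ⟨L.re, ?_⟩
  have h := (Complex.continuous_re.tendsto L).comp hL
  refine h.congr fun V => ?_
  simp only [Function.comp, mn]
  rw [intervalIntegral.integral_ofReal, ← Complex.ofReal_div, Complex.ofReal_re]

/-- integrability on `(0, V]` -/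
lemma iInt {g : ℝ → ℝ} (hg : Measurable g) {V : ℝ} (hV : 0 ≤ V) {B : ℝ}
    (hB : ∀ v ∈ Ioc 0 V, |g v| ≤ B) : IntervalIntegrable g volume 0 V := by
  rw [intervalIntegrable_iff_integrableOn_Ioc_of_le hV]
  refine Integrable.mono' (g := fun _ => B) (integrableOn_const (by simp)) hg.aestronglyMeasurable ?_
  exact (ae_restrict_mem measurableSet_Ioc).mono fun v hv => hB v hv

lemma mn_mono {g h : ℝ → ℝ} {V : ℝ} (hV : 0 < V) (hg : IntervalIntegrable g volume 0 V)
    (hh : IntervalIntegrable h volume 0 V) (hle : ∀ v ∈ Ioc 0 V, g v ≤ h v) : mn g V ≤ mn h V := by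
  unfold mn
  refine div_le_div_of_nonneg_right ?_ hV.le
  rw [intervalIntegral.integral_of_le hV.le, intervalIntegral.integral_of_le hV.le]
  refine setIntegral_mono_on ?_ ?_ measurableSet_Ioc hle
  · exact (intervalIntegrable_iff_integrableOn_Ioc_of_le hV.le).1 hg
  · exact (intervalIntegrable_iff_integrableOn_Ioc_of_le hV.le).1 hh

lemma mn_sub {g h : ℝ → ℝ} {V : ℝ} (hg : IntervalIntegrable g volume 0 V)
    (hh : IntervalIntegrable h volume 0 V) : mn (fun v => g v - h v) V = mn g V - mn h V := by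
  unfold mn
  rw [intervalIntegral.integral_sub hg hh, sub_div]

lemma mn_add {g h : ℝ → ℝ} {V : ℝ} (hg : IntervalIntegrable g volume 0 V)
    (hh : IntervalIntegrable h volume 0 V) : mn (fun v => g v + h v) V = mn g V + mn h V := by
  unfold mn
  rw [intervalIntegral.integral_add hg hh, add_div]

lemma mn_const_mul (c : ℝ) (g : ℝ → ℝ) (V : ℝ) : mn (fun v => c * g v) V = c * mn g V := by
  unfold mn
  rw [intervalIntegral.integral_const_mul, mul_div_assoc]

lemma mn_const (c : ℝ) {V : ℝ} (hV : 0 < V) : mn (fun _ => c) V = c := by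
  unfold mn
  rw [intervalIntegral.integral_const]
  simp only [sub_zero, smul_eq_mul]
  field_simp

lemma abs_mn_sub_le {g h k : ℝ → ℝ} {V : ℝ} (hV : 0 < V) (hg : IntervalIntegrable g volume 0 V)
    (hh : IntervalIntegrable h volume 0 V) (hk : IntervalIntegrable k volume 0 V)
    (hle : ∀ v ∈ Ioc 0 V, |g v - h v| ≤ k v) : |mn g V - mn h V| ≤ mn k V := by
  rw [abs_le]
  have h1 := mn_mono hV hg (hh.add hk) (fun v hv => by
    have := (abs_le.1 (hle v hv)).2
    show g v ≤ h v + k v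
    linarith)
  have h2 := mn_mono hV hh (hg.add hk) (fun v hv => by
    have := (abs_le.1 (hle v hv)).1
    show h v ≤ g v + k v
    linarith)
  have e1 : mn (fun x => h x + k x) V = mn h V + mn k V := mn_add hh hk
  have e2 : mn (fun x => g x + k x) V = mn g V + mn k V := mn_add hg hk
  rw [e1] at h1
  rw [e2] at h2
  constructor <;> linarith

/-- the mean of a continuous function of a real trigonometric polynomial exists -/
lemma mean_comp {Q : ℝ → ℝ} (hQ : (fun v => ((Q v : ℝ) : ℂ)) ∈ TPA) (hc : Continuous Q) {B : ℝ}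
    (hB : ∀ v, |Q v| ≤ B) {φ : ℝ → ℝ} (hφ : Continuous φ) :
    ∃ L : ℝ, Tendsto (mn fun v => φ (Q v)) atTop (𝓝 L) := by
  refine exists_lim_of_approx _ fun ε hε => ?_
  obtain ⟨p, hp⟩ := exists_polynomial_near_of_continuousOn (-B) B φ hφ.continuousOn ε hε
  refine ⟨mn fun v => p.eval (Q v), mean_real (poly_mem hQ p), ?_⟩
  filter_upwards [eventually_gt_atTop (0:ℝ)] with V hV
  have h1 := abs_mn_sub_le (g := fun v => φ (Q v)) (h := fun v => p.eval (Q v)) (k := fun _ => ε) hV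
    ((hφ.comp hc).intervalIntegrable _ _) ((p.continuous.comp hc).intervalIntegrable _ _)
    (continuous_const.intervalIntegrable _ _) (fun v _ => by
      rw [abs_sub_comm]
      exact (hp _ (abs_le.1 (hB v))).le)
  rwa [mn_const ε hV] at h1

end Pool.Agent.TH223.AP
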