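import Pool.Agent.TH223.AP.A1

/-! Besicovitch almost periodic functions have a limiting distribution. -/

set_option autoImplicit false

open MeasureTheory Filter Topology Set

namespace Pool.Agent.TH223.AP

/-- measurable and locally bounded on `(0, ∞)` -/
structure LB (f : ℝ → ℝ) : Prop where
  meas : Measurable f
  bdd : ∀ V : ℝ, ∃ B : ℝ, ∀ v ∈ Ioc 0 V, |f v| ≤ B

namespace LB

variable {f g : ℝ → ℝ}

lemma ii (hf : LB f) {V : ℝ} (hV : 0 ≤ V) : IntervalIntegrable f volume 0 V := by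
  obtain ⟨B, hB⟩ := hf.bdd V
  exact iInt hf.meas hV hB

lemma comp (hf : LB f) {φ : ℝ → ℝ} (hφ : Continuous φ) : LB (fun v => φ (f v)) := by
  refine ⟨hφ.measurable.comp hf.meas, fun V => ?_⟩
  obtain ⟨B, hB⟩ := hf.bdd V
  obtain ⟨C, hC⟩ := isCompact_Icc.exists_bound_of_continuousOn (hφ.continuousOn (s := Icc (-B) B))
  exact ⟨C, fun v hv => hC _ (abs_le.1 (hB v hv))⟩

lemma of_cont (hg : Continuous g) : LB g := by
  refine ⟨hg.measurable, fun V => ?_⟩
  obtain ⟨C, hC⟩ := isCompact_Icc.exists_bound_of_continuousOn (hg.continuousOn (s := Icc 0 V))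
  exact ⟨C, fun v hv => hC v ⟨hv.1.le, hv.2⟩⟩

lemma add (hf : LB f) (hg : LB g) : LB (fun v => f v + g v) := by
  refine ⟨hf.meas.add hg.meas, fun V => ?_⟩
  obtain ⟨B, hB⟩ := hf.bdd V
  obtain ⟨C, hC⟩ := hg.bdd V
  exact ⟨B + C, fun v hv => (abs_add_le _ _).trans (add_le_add (hB v hv) (hC v hv))⟩

lemma sub (hf : LB f) (hg : LB g) : LB (fun v => f v - g v) := by
  refine ⟨hf.meas.sub hg.meas, fun V => ?_⟩
  obtain ⟨B, hB⟩ := hf.bdd V
  obtain ⟨C, hC⟩ := hg.bdd V
  exact ⟨B + C, fun v hv => (abs_sub _ _).trans (add_le_add (hB v hv) (hC v hv))⟩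

lemma sq (hf : LB f) : LB (fun v => f v ^ 2) := hf.comp (φ := fun t => t ^ 2) (by fun_prop)

lemma const_mul (c : ℝ) (hf : LB f) : LB (fun v => c * f v) :=
  hf.comp (φ := fun t => c * t) (by fun_prop)

end LB

/-- `B²` almost periodicity of a real function -/
def B2 (f : ℝ → ℝ) : Prop := ∀ ε : ℝ, 0 < ε → ∃ (K : Finset ℝ) (a : ℝ → ℂ), ∀ᶠ V : ℝ in atTop,
  mn (fun v => ‖((f v : ℝ) : ℂ) - trig K a v‖ ^ 2) V ≤ ε

lemma norm_sub_sq (x : ℝ) (z : ℂ) : ‖(x : ℂ) - z‖ ^ 2 = (x - z.re) ^ 2 + z.im ^ 2 := by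
  rw [← Complex.normSq_eq_norm_sq, Complex.normSq_apply]
  simp
  ring

lemma LB.normsq {f : ℝ → ℝ} (hf : LB f) {P : ℝ → ℂ} (hP : Continuous P) :
    LB (fun v => ‖((f v : ℝ) : ℂ) - P v‖ ^ 2) := by
  simp only [norm_sub_sq]
  exact ((hf.sub (LB.of_cont (Complex.continuous_re.comp hP))).sq).add
    ((LB.of_cont (Complex.continuous_im.comp hP)).sq)

lemma B2.real {f : ℝ → ℝ} (h : B2 f) (hf : LB f) {ε : ℝ} (hε : 0 < ε) :
    ∃ (K : Finset ℝ) (a : ℝ → ℂ), ∀ᶠ V : ℝ in atTop, mn (fun v => (f v - rt K a v) ^ 2) V ≤ ε := by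
  obtain ⟨K, a, h1⟩ := h ε hε
  refine ⟨K, a, ?_⟩
  filter_upwards [h1, eventually_gt_atTop (0:ℝ)] with V h2 hV
  refine (mn_mono hV ((hf.sub (LB.of_cont (rt_cont K a))).sq.ii hV.le)
    ((hf.normsq (trig_cont K a)).ii hV.le) (fun v _ => ?_)).trans h2
  rw [norm_sub_sq]
  have := sq_nonneg (trig K a v).im
  show (f v - (trig K a v).re) ^ 2 ≤ _
  linarith

/-- the mean square is bounded -/
lemma B2.second {f : ℝ → ℝ} (h : B2 f) (hf : LB f) :
    ∃ C : ℝ, 0 < C ∧ ∀ V : ℝ, 1 ≤ V → mn (fun v => f v ^ 2) V ≤ C := by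
  obtain ⟨K, a, h1⟩ := h.real hf one_pos
  obtain ⟨B, hB⟩ : ∃ B : ℝ, B = ∑ l ∈ K, ‖a l‖ := ⟨_, rfl⟩
  have hB0 : 0 ≤ B := by rw [hB]; positivity
  obtain ⟨V0, hV0⟩ := eventually_atTop.1 h1
  obtain ⟨W, hW⟩ : ∃ W : ℝ, W = max V0 1 := ⟨_, rfl⟩
  have hW1 : 1 ≤ W := hW ▸ le_max_right _ _
  have hWV : V0 ≤ W := hW ▸ le_max_left _ _
  have hI0 : 0 ≤ ∫ v in (0:ℝ)..W, f v ^ 2 :=
    intervalIntegral.integral_nonneg (by linarith) fun v _ => sq_nonneg _
  refine ⟨2 + 2 * B ^ 2 + ∫ v in (0:ℝ)..W, f v ^ 2, by positivity, fun V hV => ?_⟩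
  rcases le_total W V with hle | hle
  · have hV0' : 0 < V := by linarith
    have h2 := hV0 V (hWV.trans hle)
    have h3 : mn (fun v => f v ^ 2) V ≤ mn (fun v => 2 * (f v - rt K a v) ^ 2 + 2 * B ^ 2) V := by
      refine mn_mono hV0' (hf.sq.ii hV0'.le)
        (((hf.sub (LB.of_cont (rt_cont K a))).sq.const_mul 2).add (LB.of_cont continuous_const) |>.ii
          hV0'.le) (fun v _ => ?_)
      have h4 : rt K a v ^ 2 ≤ B ^ 2 := by
        rw [sq_le_sq, abs_of_nonneg hB0, hB]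
        exact rt_bound K a v
      nlinarith [sq_nonneg (f v - 2 * rt K a v)]
    rw [mn_add (((hf.sub (LB.of_cont (rt_cont K a))).sq.const_mul 2).ii hV0'.le)
      (continuous_const.intervalIntegrable _ _), mn_const_mul, mn_const _ hV0'] at h3
    linarith
  · have hV0' : 0 < V := by linarith
    have h3 : ∫ v in (0:ℝ)..V, f v ^ 2 ≤ ∫ v in (0:ℝ)..W, f v ^ 2 := by
      refine intervalIntegral.integral_mono_interval le_rfl hV0'.le hle
        (Eventually.of_forall fun v => sq_nonneg _) (hf.sq.ii (by linarith))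
    have h4 : mn (fun v => f v ^ 2) V ≤ ∫ v in (0:ℝ)..V, f v ^ 2 := by
      unfold mn
      refine div_le_self ?_ hV
      exact intervalIntegral.integral_nonneg hV0'.le fun v _ => sq_nonneg _
    have : 0 ≤ B ^ 2 := sq_nonneg B
    linarith

/-- means of Lipschitz functions exist -/
lemma B2.lip {f : ℝ → ℝ} (h : B2 f) (hf : LB f) {φ : ℝ → ℝ} {L : NNReal} (hφ : LipschitzWith L φ) :
    ∃ l : ℝ, Tendsto (mn fun v => φ (f v)) atTop (𝓝 l) := by
  refine exists_lim_of_approx _ fun ε hε => ?_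
  obtain ⟨η, hη⟩ : ∃ η : ℝ, η = ε / (L + 1) := ⟨_, rfl⟩
  have hL : (0:ℝ) ≤ L := L.2
  have hη0 : 0 < η := by rw [hη]; positivity
  obtain ⟨K, a, h1⟩ := h.real hf (pow_pos hη0 2)
  refine ⟨mn fun v => φ (rt K a v), mean_comp (rt_mem K a) (rt_cont K a) (rt_bound K a) hφ.continuous, ?_⟩
  filter_upwards [h1, eventually_gt_atTop (0:ℝ)] with V h2 hV
  have hsub := hf.sub (LB.of_cont (rt_cont K a))
  have hk : LB (fun v => (L / (2 * η)) * (f v - rt K a v) ^ 2 + L * η / 2) :=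
    (hsub.sq.const_mul _).add (LB.of_cont continuous_const)
  have h3 := abs_mn_sub_le (g := fun v => φ (f v)) (h := fun v => φ (rt K a v)) hV
    ((hf.comp hφ.continuous).ii hV.le)
    (((LB.of_cont (rt_cont K a)).comp hφ.continuous).ii hV.le) (hk.ii hV.le) (fun v _ => by
      have h4 := hφ.dist_le_mul (f v) (rt K a v)
      rw [Real.dist_eq, Real.dist_eq] at h4
      refine h4.trans ?_
      have h5 : |f v - rt K a v| ≤ (f v - rt K a v) ^ 2 / (2 * η) + η / 2 := by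
        rw [← sq_abs (f v - rt K a v)]
        have h6 : (|f v - rt K a v| ^ 2 / (2 * η) + η / 2) - |f v - rt K a v| =
            (|f v - rt K a v| - η) ^ 2 / (2 * η) := by
          field_simp
          ring
        have h7 : 0 ≤ (|f v - rt K a v| - η) ^ 2 / (2 * η) := by positivity
        linarith
      calc (L:ℝ) * |f v - rt K a v| ≤ L * ((f v - rt K a v) ^ 2 / (2 * η) + η / 2) := by gcongr
        _ = _ := by ring)
  refine h3.trans ?_
  rw [mn_add ((hsub.sq.const_mul _).ii hV.le) (continuous_const.intervalIntegrable _ _), mn_const_mul,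
    mn_const _ hV]
  have h5 : (L:ℝ) / (2 * η) * mn (fun v => (f v - rt K a v) ^ 2) V ≤ L / (2 * η) * η ^ 2 := by
    gcongr
  have h6 : (L:ℝ) / (2 * η) * η ^ 2 + L * η / 2 = L * η := by
    field_simp
    ring
  have h7 : (L:ℝ) * η ≤ ε := by
    rw [hη, mul_div_assoc', div_le_iff₀ (by positivity)]
    nlinarith
  linarith

/-- the law of `f` on `(0, max V 1]` -/
noncomputable def lawM (f : ℝ → ℝ) (V : ℝ) : Measure ℝ :=
  (ENNReal.ofReal (max V 1))⁻¹ • (volume.restrict (Ioc 0 (max V 1))).map f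

lemma lawM_prob {f : ℝ → ℝ} (hf : Measurable f) (V : ℝ) : IsProbabilityMeasure (lawM f V) := by
  constructor
  unfold lawM
  rw [Measure.smul_apply, Measure.map_apply hf MeasurableSet.univ, preimage_univ,
    Measure.restrict_apply_univ, Real.volume_Ioc, sub_zero, smul_eq_mul]
  have h : 0 < max V 1 := lt_of_lt_of_le one_pos (le_max_right _ _)
  exact ENNReal.inv_mul_cancel (by simp [h]) ENNReal.ofReal_ne_top

/-- the law of `f` on `(0, max V 1]` -/
noncomputable def law {f : ℝ → ℝ} (hf : LB f) (V : ℝ) : ProbabilityMeasure ℝ :=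
  ⟨lawM f V, lawM_prob hf.meas V⟩

lemma law_integral {f : ℝ → ℝ} (hf : LB f) {φ : ℝ → ℝ} (hφ : Continuous φ) {V : ℝ} (hV : 1 ≤ V) :
    ∫ t, φ t ∂(law hf V : Measure ℝ) = mn (fun v => φ (f v)) V := by
  show ∫ t, φ t ∂(lawM f V) = _
  unfold lawM mn
  rw [max_eq_left hV, integral_smul_measure, integral_map hf.meas.aemeasurable
    hφ.measurable.aestronglyMeasurable, intervalIntegral.integral_of_le (by linarith), ENNReal.toReal_inv,
    ENNReal.toReal_ofReal (by linarith), smul_eq_mul, inv_mul_eq_div]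

lemma law_integrable {f : ℝ → ℝ} (hf : LB f) {φ : ℝ → ℝ} (hφ : Continuous φ) {V : ℝ} (hV : 1 ≤ V) :
    Integrable φ (law hf V : Measure ℝ) := by
  show Integrable φ (lawM f V)
  unfold lawM
  refine Integrable.smul_measure ?_ ?_
  · rw [integrable_map_measure hφ.measurable.aestronglyMeasurable hf.meas.aemeasurable, max_eq_left hV]
    exact (intervalIntegrable_iff_integrableOn_Ioc_of_le (by linarith)).1 ((hf.comp hφ).ii (by linarith))
  · rw [max_eq_left hV, ENNReal.inv_ne_top]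
    have : 0 < V := by linarith
    simp [this]

lemma law_max {f : ℝ → ℝ} (hf : LB f) (V : ℝ) : law hf V = law hf (max V 1) := by
  apply Subtype.ext
  show lawM f V = lawM f (max V 1)
  unfold lawM
  rw [max_assoc, max_self]

lemma tight {f : ℝ → ℝ} (h : B2 f) (hf : LB f) :
    IsTightMeasureSet {((μ : ProbabilityMeasure ℝ) : Measure ℝ) | μ ∈ Set.range (law hf)} := by
  obtain ⟨C, hC0, hC⟩ := h.second hf
  rw [isTightMeasureSet_iff_exists_isCompact_measure_compl_le]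
  intro ε hε
  obtain ⟨e, he⟩ : ∃ e : ℝ, e = (min ε 1).toReal := ⟨_, rfl⟩
  have hmin : min ε 1 ≠ ⊤ := ne_top_of_le_ne_top ENNReal.one_ne_top (min_le_right _ _)
  have he0 : 0 < e := by
    rw [he]
    exact ENNReal.toReal_pos (by simp [hε.ne']) hmin
  obtain ⟨R, hR⟩ : ∃ R : ℝ, R = Real.sqrt (C / e) := ⟨_, rfl⟩
  have hR0 : 0 < R := by rw [hR]; positivity
  have hR2 : R ^ 2 = C / e := by rw [hR, Real.sq_sqrt (by positivity)]
  refine ⟨Icc (-R) R, isCompact_Icc, ?_⟩
  rintro _ ⟨_, ⟨V, rfl⟩, rfl⟩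
  rw [law_max]
  have hV1 : 1 ≤ max V 1 := le_max_right _ _
  have h1 := mul_meas_ge_le_integral_of_nonneg (μ := (law hf (max V 1) : Measure ℝ))
    (f := fun t => t ^ 2) (Eventually.of_forall fun t => sq_nonneg t)
    (law_integrable hf (by fun_prop) hV1) (R ^ 2)
  rw [law_integral hf (by fun_prop) hV1] at h1
  have h2 := h1.trans (hC _ hV1)
  rw [hR2, div_mul_eq_mul_div, div_le_iff₀ he0] at h2
  have h3 : (law hf (max V 1) : Measure ℝ).real {x | C / e ≤ x ^ 2} ≤ e := le_of_mul_le_mul_left h2 hC0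
  have hsub : (Icc (-R) R)ᶜ ⊆ {x | C / e ≤ x ^ 2} := by
    intro x hx
    show C / e ≤ x ^ 2
    rw [← hR2, sq_le_sq, abs_of_pos hR0]
    by_contra hcon
    exact hx (abs_le.1 (not_le.1 hcon).le)
  calc (law hf (max V 1) : Measure ℝ) (Icc (-R) R)ᶜ
      ≤ (law hf (max V 1) : Measure ℝ) {x | C / e ≤ x ^ 2} := measure_mono hsub
    _ = ENNReal.ofReal ((law hf (max V 1) : Measure ℝ).real {x | C / e ≤ x ^ 2}) := by
        rw [measureReal_def, ENNReal.ofReal_toReal (measure_ne_top _ _)]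
    _ ≤ ENNReal.ofReal e := ENNReal.ofReal_le_ofReal h3
    _ = min ε 1 := by rw [he, ENNReal.ofReal_toReal hmin]
    _ ≤ ε := min_le_left _ _

/-- the limiting distribution exists -/
theorem exists_law {f : ℝ → ℝ} (h : B2 f) (hf : LB f) :
    ∃ μ : ProbabilityMeasure ℝ, Tendsto (law hf) atTop (𝓝 μ) := by
  have hc : IsCompact (closure (Set.range (law hf))) := isCompact_closure_of_isTightMeasureSet (tight h hf)
  obtain ⟨μ, -, hμ⟩ := hc.ultrafilter_le_nhds ((Ultrafilter.of (atTop : Filter ℝ)).map (law hf)) (by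
    refine le_principal_iff.2 ?_
    rw [Ultrafilter.coe_map]
    exact Filter.mem_of_superset (range_mem_map) subset_closure)
  refine ⟨μ, ?_⟩
  rw [tendsto_iff_forall_lipschitz_integral_tendsto]
  rintro φ ⟨C, hC⟩ ⟨L, hL⟩
  obtain ⟨l, hl⟩ := h.lip hf hL
  have h1 : Tendsto (fun V => ∫ t, φ t ∂(law hf V : Measure ℝ)) atTop (𝓝 l) := by
    refine hl.congr' ?_
    filter_upwards [eventually_ge_atTop (1:ℝ)] with V hV
    rw [law_integral hf hL.continuous hV]
  have h2 : Tendsto (law hf) (Ultrafilter.of (atTop : Filter ℝ)) (𝓝 μ) := hμ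
  rw [ProbabilityMeasure.tendsto_iff_forall_integral_tendsto] at h2
  have h3 := h2 (BoundedContinuousFunction.mkOfBound ⟨φ, hL.continuous⟩ C hC)
  have h4 : Tendsto (fun V => ∫ t, φ t ∂(law hf V : Measure ℝ)) (Ultrafilter.of (atTop : Filter ℝ)) (𝓝 l) :=
    h1.mono_left (Ultrafilter.of_le _)
  have h5 := tendsto_nhds_unique h4 h3
  have h6 : l = ∫ t, φ t ∂(μ : Measure ℝ) := h5
  rw [← h6]
  exact h1

lemma law_bounded {f : ℝ → ℝ} {hf : LB f} {μ : ProbabilityMeasure ℝ} (hμ : Tendsto (law hf) atTop (𝓝 μ))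
    {φ : ℝ → ℝ} (hφ : Continuous φ) {C : ℝ} (hC : ∀ t, |φ t| ≤ C) :
    Tendsto (mn fun v => φ (f v)) atTop (𝓝 (∫ t, φ t ∂(μ : Measure ℝ))) := by
  rw [ProbabilityMeasure.tendsto_iff_forall_integral_tendsto] at hμ
  have h1 := hμ (BoundedContinuousFunction.ofNormedAddCommGroup φ hφ C hC)
  refine h1.congr' ?_
  filter_upwards [eventually_ge_atTop (1:ℝ)] with V hV
  rw [← law_integral hf hφ hV]
  rfl

/-- truncation -/
def cl (R t : ℝ) : ℝ := max (-R) (min t R)

lemma cl_cont (R : ℝ) : Continuous (cl R) := by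
  unfold cl
  fun_prop

lemma cl_abs {R : ℝ} (hR : 0 ≤ R) (t : ℝ) : |cl R t| ≤ R := by
  unfold cl
  rw [abs_le]
  exact ⟨le_max_left _ _, max_le (by linarith) (min_le_right _ _)⟩

lemma cl_eq {R t : ℝ} (h : |t| ≤ R) : cl R t = t := by
  unfold cl
  rw [min_eq_left (abs_le.1 h).2, max_eq_right (abs_le.1 h).1]

lemma cl_abs' {R : ℝ} (hR : 0 ≤ R) (t : ℝ) : |cl R t| ≤ |t| := by
  rcases le_total |t| R with h | h
  · rw [cl_eq h]
  · exact (cl_abs hR t).trans h

lemma second_int {f : ℝ → ℝ} (h : B2 f) {hf : LB f} {μ : ProbabilityMeasure ℝ}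
    (hμ : Tendsto (law hf) atTop (𝓝 μ)) : Integrable (fun t : ℝ => t ^ 2) (μ : Measure ℝ) := by
  obtain ⟨C, hC0, hC⟩ := h.second hf
  have h1 : ∀ n : ℕ, ∫⁻ t, ENNReal.ofReal (cl n t ^ 2) ∂(μ : Measure ℝ) ≤ ENNReal.ofReal C := by
    intro n
    have hb : ∀ t, |cl n t ^ 2| ≤ (n:ℝ) ^ 2 := by
      intro t
      rw [abs_of_nonneg (sq_nonneg _), sq_le_sq]
      exact (cl_abs (Nat.cast_nonneg n) t).trans (le_abs_self _)
    have hcont : Continuous fun t => cl n t ^ 2 := (cl_cont n).pow 2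
    have h2 := law_bounded hμ hcont hb
    have h3 : ∫ t, cl n t ^ 2 ∂(μ : Measure ℝ) ≤ C := by
      refine le_of_tendsto h2 ?_
      filter_upwards [eventually_ge_atTop (1:ℝ)] with V hV
      refine (mn_mono (by linarith) ((hf.comp hcont).ii (by linarith)) (hf.sq.ii (by linarith))
        (fun v _ => ?_)).trans (hC V hV)
      rw [sq_le_sq]
      exact cl_abs' (Nat.cast_nonneg n) _
    rw [← ofReal_integral_eq_lintegral_ofReal]
    · exact ENNReal.ofReal_le_ofReal h3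
    · exact Integrable.mono' (g := fun _ => (n:ℝ) ^ 2) (integrable_const _)
        hcont.measurable.aestronglyMeasurable (Eventually.of_forall hb)
    · exact Eventually.of_forall fun t => sq_nonneg _
  have h2 : ∫⁻ t, ENNReal.ofReal (t ^ 2) ∂(μ : Measure ℝ) ≤ ENNReal.ofReal C := by
    have h3 : ∀ t : ℝ, ENNReal.ofReal (t ^ 2) =
        liminf (fun n : ℕ => ENNReal.ofReal (cl n t ^ 2)) atTop := by
      intro t
      refine (Tendsto.liminf_eq ?_).symm
      refine tendsto_const_nhds.congr' ?_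
      filter_upwards [eventually_ge_atTop ⌈|t|⌉₊] with n hn
      rw [cl_eq]
      exact (Nat.le_ceil _).trans (by exact_mod_cast hn)
    calc ∫⁻ t, ENNReal.ofReal (t ^ 2) ∂(μ : Measure ℝ)
        = ∫⁻ t, liminf (fun n : ℕ => ENNReal.ofReal (cl n t ^ 2)) atTop ∂(μ : Measure ℝ) := by
          refine lintegral_congr fun t => h3 t
      _ ≤ liminf (fun n : ℕ => ∫⁻ t, ENNReal.ofReal (cl n t ^ 2) ∂(μ : Measure ℝ)) atTop :=
          lintegral_liminf_le fun n => ((cl_cont n).pow 2).measurable.ennreal_ofReal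
      _ ≤ ENNReal.ofReal C := by
          refine liminf_le_of_le (by isBoundedDefault) fun b hb => ?_
          obtain ⟨n, hn⟩ := hb.exists
          exact hn.trans (h1 n)
  refine ⟨(by fun_prop : Measurable fun t : ℝ => t ^ 2).aestronglyMeasurable, ?_⟩
  rw [hasFiniteIntegral_iff_ofReal (Eventually.of_forall fun t => sq_nonneg t)]
  exact h2.trans_lt ENNReal.ofReal_lt_top

/-- convergence for test functions of quadratic growth -/
theorem limit_quad {f : ℝ → ℝ} (h : B2 f) {hf : LB f} {μ : ProbabilityMeasure ℝ}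
    (hμ : Tendsto (law hf) atTop (𝓝 μ)) {φ : ℝ → ℝ} (hφ : Continuous φ) {C : ℝ}
    (hC : ∀ t, |φ t| ≤ C * (1 + t ^ 2)) :
    Integrable φ (μ : Measure ℝ) ∧
      Tendsto (mn fun v => φ (f v)) atTop (𝓝 (∫ t, φ t ∂(μ : Measure ℝ))) := by
  have hC0 : 0 ≤ C := by
    have := (abs_nonneg (φ 0)).trans (hC 0)
    simpa using this
  have hg : Integrable (fun t : ℝ => C * (1 + t ^ 2)) (μ : Measure ℝ) :=
    ((integrable_const _).add (second_int h hμ)).const_mul C
  have hint : Integrable φ (μ : Measure ℝ) :=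
    hg.mono' hφ.measurable.aestronglyMeasurable (Eventually.of_forall hC)
  refine ⟨hint, ?_⟩
  have htr : Tendsto (fun n : ℕ => ∫ t, φ (cl n t) ∂(μ : Measure ℝ)) atTop
      (𝓝 (∫ t, φ t ∂(μ : Measure ℝ))) := by
    refine tendsto_integral_of_dominated_convergence (fun t : ℝ => C * (1 + t ^ 2))
      (fun n => (hφ.comp (cl_cont n)).measurable.aestronglyMeasurable) hg
      (fun n => Eventually.of_forall fun t => ?_) (Eventually.of_forall fun t => ?_)
    · refine (hC _).trans ?_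
      have h1 : cl n t ^ 2 ≤ t ^ 2 := by
        rw [sq_le_sq]
        exact cl_abs' (Nat.cast_nonneg n) t
      gcongr
    · refine tendsto_const_nhds.congr' ?_
      filter_upwards [eventually_ge_atTop ⌈|t|⌉₊] with n hn
      rw [cl_eq]
      exact (Nat.le_ceil _).trans (by exact_mod_cast hn)
  rw [Metric.tendsto_nhds]
  intro ε hε
  obtain ⟨η, hη⟩ : ∃ η : ℝ, η = ε / (4 * (16 * C + 1)) := ⟨_, rfl⟩
  have hη0 : 0 < η := by rw [hη]; positivity
  obtain ⟨K, a, h1⟩ := h.real hf hη0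
  obtain ⟨B, hB⟩ : ∃ B : ℝ, B = ∑ l ∈ K, ‖a l‖ := ⟨_, rfl⟩
  have hB0 : 0 ≤ B := by rw [hB]; positivity
  have h2 := (Metric.tendsto_nhds.1 htr (ε / 4) (by positivity)).and
    (eventually_ge_atTop (⌈2 * B⌉₊ + 1))
  obtain ⟨n, hn1, hn2⟩ := h2.exists
  have hn3 : 2 * B ≤ n := (Nat.le_ceil _).trans (by exact_mod_cast (by omega : ⌈2 * B⌉₊ ≤ n))
  have hn4 : (1:ℝ) ≤ n := by exact_mod_cast (by omega : 1 ≤ n)
  have hn0 : (0:ℝ) ≤ n := Nat.cast_nonneg n
  obtain ⟨D, hD⟩ := isCompact_Icc.exists_bound_of_continuousOn (hφ.continuousOn (s := Icc (-(n:ℝ)) n))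
  have h3 := law_bounded hμ (hφ.comp (cl_cont n)) (C := D) (fun t => hD _ (abs_le.1 (cl_abs hn0 t)))
  have h4 := Metric.tendsto_nhds.1 h3 (ε / 4) (by positivity)
  filter_upwards [h1, h4, eventually_gt_atTop (0:ℝ)] with V h5 h6 hV
  have hsub := hf.sub (LB.of_cont (rt_cont K a))
  have h7 := abs_mn_sub_le (g := fun v => φ (f v)) (h := fun v => φ (cl n (f v)))
    (k := fun v => 16 * C * (f v - rt K a v) ^ 2) hV
    ((hf.comp hφ).ii hV.le) ((hf.comp (hφ.comp (cl_cont n))).ii hV.le)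
    ((hsub.sq.const_mul _).ii hV.le) (fun v _ => by
      rcases le_or_gt |f v| n with h8 | h8
      · rw [cl_eq h8, sub_self, abs_zero]
        positivity
      · have h9 := hC (f v)
        have h10 := hC (cl n (f v))
        have h11 : cl n (f v) ^ 2 ≤ f v ^ 2 := by
          rw [sq_le_sq]
          exact cl_abs' hn0 _
        have h12 := rt_bound K a v
        rw [← hB] at h12
        have h13 : |f v| ≤ 2 * |f v - rt K a v| := by
          have := abs_sub_abs_le_abs_sub (f v) (rt K a v)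
          linarith
        have h14 : f v ^ 2 ≤ 4 * (f v - rt K a v) ^ 2 := by
          rw [← sq_abs (f v), ← sq_abs (f v - rt K a v)]
          nlinarith [abs_nonneg (f v), abs_nonneg (f v - rt K a v)]
        have h15 : 1 ≤ f v ^ 2 := by
          rw [← sq_abs (f v)]
          nlinarith
        have h16 : |φ (f v) - φ (cl n (f v))| ≤ C * (1 + f v ^ 2) + C * (1 + cl n (f v) ^ 2) :=
          (abs_sub _ _).trans (add_le_add h9 h10)
        refine h16.trans ?_
        have h17 : C * (1 + f v ^ 2) + C * (1 + cl n (f v) ^ 2) ≤ C * (4 * f v ^ 2) := by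
          rw [← mul_add]
          refine mul_le_mul_of_nonneg_left ?_ hC0
          linarith
        refine h17.trans ?_
        have h18 : C * (4 * f v ^ 2) ≤ C * (4 * (4 * (f v - rt K a v) ^ 2)) := by
          refine mul_le_mul_of_nonneg_left ?_ hC0
          linarith
        linarith)
  rw [mn_const_mul] at h7
  have h8 : 16 * C * mn (fun v => (f v - rt K a v) ^ 2) V ≤ ε / 4 := by
    calc 16 * C * mn (fun v => (f v - rt K a v) ^ 2) V ≤ 16 * C * η := by gcongr
      _ ≤ (16 * C + 1) * η := by nlinarith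
      _ = ε / 4 := by
        rw [hη]
        field_simp
  rw [Real.dist_eq] at hn1 h6 ⊢
  have h9 := abs_le.1 (h7.trans h8)
  have h10 := abs_lt.1 hn1
  have h11 := abs_lt.1 h6
  simp only [Function.comp] at h11
  rw [abs_lt]
  constructor <;> linarith [h9.1, h9.2, h10.1, h10.2, h11.1, h11.2]

end Pool.Agent.TH223.AP
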