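import Pool.Agent.TH223.AP.A2
import Pool.Agent.H295R2.WM8
import Pool.Agent.H307R2.LU
import Pool.Agent.H332R2.FL.ZeroExists

/-! The mean square distance of `M(e^v) e^{-v/2}` to the partial sums of its Fourier series. -/

set_option autoImplicit false

open MeasureTheory Filter Topology Set

namespace Pool.Agent.TH223.AP

open Pool.Agent.H295R2

/-- `f(v) = M(e^v) e^{-v/2}` -/
noncomputable def ft (v : ℝ) : ℝ :=
  (∑ n ∈ Finset.Icc 1 ⌊Real.exp v⌋₊, ((ArithmeticFunction.moebius n : ℤ) : ℝ)) * Real.exp (-(v / 2))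

lemma m0_ft (v : ℝ) : m0 v = ((ft v : ℝ) : ℂ) := rfl

lemma ft_LB : LB ft := by
  refine ⟨?_, fun V => ⟨Real.exp V, fun v hv => ?_⟩⟩
  · have h1 : Measurable fun v : ℝ => Mx (Real.exp v) := Mx_meas.comp Real.measurable_exp
    exact h1.mul (by fun_prop)
  · have h1 := norm_mf_le' (ρ := (1 / 2 : ℂ)) (by norm_num) hv.2
    rw [norm_mf] at h1
    have h2 : ft v = Mx (Real.exp v) * Real.exp (-(v / 2)) := rfl
    rw [h2, abs_mul, abs_of_pos (Real.exp_pos _)]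
    have h3 : ((1 / 2 : ℂ)).re * v = v / 2 := by norm_num; ring
    rwa [h3] at h1

lemma ft_sq (v : ℝ) : ft v ^ 2 = Mx (Real.exp v) ^ 2 * Real.exp (-v) := by
  have h2 : ft v = Mx (Real.exp v) * Real.exp (-(v / 2)) := rfl
  have h3 : Real.exp (-v) = Real.exp (-(v / 2)) ^ 2 := by
    rw [← Real.exp_nat_mul]
    congr 1
    push_cast
    ring
  rw [h2, mul_pow, h3]

lemma mn_sq {V : ℝ} (hV : 0 ≤ V) : mn (fun v => ft v ^ 2) V = JJ V / V := by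
  unfold mn JJ
  rw [intervalIntegral.integral_of_le hV]
  congr 1
  refine integral_congr_ae (Eventually.of_forall fun v => ?_)
  exact ft_sq v

/-- the Bessel identity -/
lemma bessel_eq (Z : Finset ℂ) (hZ : ∀ ρ ∈ Z, ρ.re = 1 / 2) (w : ℂ → ℂ) (L : ℝ) :
    ∫ s in Ioc 0 L, Complex.normSq (m0 s - ∑ ρ ∈ Z, w ρ * ee ρ s) =
      JJ L - 2 * (∑ ρ ∈ Z, (starRingEnd ℂ) (w ρ) * PP ρ L).re +
      (∑ ρ ∈ Z, ∑ ρ' ∈ Z, w ρ * (starRingEnd ℂ) (w ρ') * GR (ρ - ρ') L).re := by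
  set S : ℝ → ℂ := fun s => ∑ ρ ∈ Z, w ρ * ee ρ s with hS
  have hpt : ∀ s, Complex.normSq (m0 s - S s) = Mx (Real.exp s) ^ 2 * Real.exp (-s) -
      2 * (∑ ρ ∈ Z, (starRingEnd ℂ) (w ρ) * mf ρ s).re +
      (∑ ρ ∈ Z, ∑ ρ' ∈ Z, w ρ * (starRingEnd ℂ) (w ρ') * Complex.exp ((ρ - ρ') * s)).re := by
    intro s
    rw [Complex.normSq_sub]
    have e1 : Complex.normSq (m0 s) = Mx (Real.exp s) ^ 2 * Real.exp (-s) := by
      unfold m0
      rw [Complex.normSq_ofReal]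
      have : Real.exp (-s) = Real.exp (-(s / 2)) * Real.exp (-(s / 2)) := by
        rw [← Real.exp_add]; ring_nf
      rw [this]; ring
    have e2 : (m0 s * (starRingEnd ℂ) (S s)) = ∑ ρ ∈ Z, (starRingEnd ℂ) (w ρ) * mf ρ s := by
      rw [hS]
      simp only
      rw [map_sum, Finset.mul_sum]
      refine Finset.sum_congr rfl fun ρ hρ => ?_
      rw [map_mul, ← m0_mul (hZ ρ hρ) s]; ring
    have e3 : Complex.normSq (S s) =
        (∑ ρ ∈ Z, ∑ ρ' ∈ Z, w ρ * (starRingEnd ℂ) (w ρ') * Complex.exp ((ρ - ρ') * s)).re := by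
      have h1 : ((Complex.normSq (S s) : ℝ) : ℂ) = ∑ ρ ∈ Z, ∑ ρ' ∈ Z, w ρ * (starRingEnd ℂ) (w ρ') * Complex.exp ((ρ - ρ') * s) := by
        rw [Complex.normSq_eq_conj_mul_self, mul_comm, hS]
        simp only
        rw [map_sum, Finset.sum_mul_sum]
        refine Finset.sum_congr rfl fun ρ _ => Finset.sum_congr rfl fun ρ' hρ' => ?_
        rw [map_mul, ← ee_mul (ρ := ρ) (hZ ρ' hρ') s]; ring
      rw [← h1, Complex.ofReal_re]
    rw [e1, e2, e3]; ring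
  have i1 : IntegrableOn (fun s => ∑ ρ ∈ Z, (starRingEnd ℂ) (w ρ) * mf ρ s) (Ioc 0 L) :=
    integrable_finsetSum _ fun ρ hρ => (mf_iOn (by rw [hZ ρ hρ]; norm_num) L).const_mul _
  have i2 : IntegrableOn (fun s : ℝ => ∑ ρ ∈ Z, ∑ ρ' ∈ Z, w ρ * (starRingEnd ℂ) (w ρ') * Complex.exp ((ρ - ρ') * s)) (Ioc 0 L) :=
    cont_iOn (by fun_prop) L
  have i3 := i1.re
  have i4 := i2.re
  have i5 : IntegrableOn (fun s => 2 * (∑ ρ ∈ Z, (starRingEnd ℂ) (w ρ) * mf ρ s).re) (Ioc 0 L) := i3.const_mul 2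
  have i6 : IntegrableOn (fun s => Mx (Real.exp s) ^ 2 * Real.exp (-s) - 2 * (∑ ρ ∈ Z, (starRingEnd ℂ) (w ρ) * mf ρ s).re) (Ioc 0 L) :=
    (JJ_integrable L).sub i5
  have i7 : IntegrableOn (fun s : ℝ => (∑ ρ ∈ Z, ∑ ρ' ∈ Z, w ρ * (starRingEnd ℂ) (w ρ') * Complex.exp ((ρ - ρ') * s)).re) (Ioc 0 L) := i4
  have e4 := integral_add i6 i7
  have e5 := integral_sub (JJ_integrable L) i5
  have e0 : ∫ s in Ioc 0 L, Complex.normSq (m0 s - S s) = ∫ s in Ioc 0 L,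
      (Mx (Real.exp s) ^ 2 * Real.exp (-s) - 2 * (∑ ρ ∈ Z, (starRingEnd ℂ) (w ρ) * mf ρ s).re +
      (∑ ρ ∈ Z, ∑ ρ' ∈ Z, w ρ * (starRingEnd ℂ) (w ρ') * Complex.exp ((ρ - ρ') * s)).re) :=
    integral_congr_ae (Eventually.of_forall fun s => hpt s)
  rw [e0, e4, e5, integral_const_mul]
  have e6 : ∫ s in Ioc 0 L, (∑ ρ ∈ Z, (starRingEnd ℂ) (w ρ) * mf ρ s).re = (∑ ρ ∈ Z, (starRingEnd ℂ) (w ρ) * PP ρ L).re := by
    have := integral_re i1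
    simp only [RCLike.re_eq_complex_re] at this
    rw [this, integral_finsetSum]
    · congr 1
      refine Finset.sum_congr rfl fun ρ _ => ?_
      rw [integral_const_mul]; rfl
    · exact fun ρ hρ => (mf_iOn (by rw [hZ ρ hρ]; norm_num) L).const_mul _
  have e7 : ∫ s in Ioc 0 L, (∑ ρ ∈ Z, ∑ ρ' ∈ Z, w ρ * (starRingEnd ℂ) (w ρ') * Complex.exp ((ρ - ρ') * s)).re =
      (∑ ρ ∈ Z, ∑ ρ' ∈ Z, w ρ * (starRingEnd ℂ) (w ρ') * GR (ρ - ρ') L).re := by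
    have := integral_re i2
    simp only [RCLike.re_eq_complex_re] at this
    rw [this, integral_finsetSum]
    · congr 1
      refine Finset.sum_congr rfl fun ρ _ => ?_
      rw [integral_finsetSum]
      · refine Finset.sum_congr rfl fun ρ' _ => ?_
        rw [integral_const_mul]; rfl
      · exact fun ρ' _ => cont_iOn (by fun_prop) L
    · exact fun ρ _ => cont_iOn (by fun_prop) L
  rw [e6, e7]
  rfl

lemma PP_lim {C : ℝ} (hC : ∀ᶠ V in atTop, JJ V ≤ C * V) {ρ : ℂ} (h : ρ.re = 1 / 2)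
    (hz : riemannZeta ρ = 0) (hd : deriv riemannZeta ρ ≠ 0) :
    Tendsto (fun V : ℝ => PP ρ V / V) atTop (𝓝 (ww ρ)) := by
  obtain ⟨K, hK, hb⟩ := PP_bound' h hz hd
  rw [tendsto_iff_norm_sub_tendsto_zero]
  refine squeeze_zero' (Eventually.of_forall fun V => norm_nonneg _) ?_ (sqrt_lim K C)
  filter_upwards [hC, eventually_gt_atTop (0:ℝ)] with V h1 hV
  have hV' : (V : ℂ) ≠ 0 := by exact_mod_cast hV.ne'
  have e : PP ρ V / V - ww ρ = (PP ρ V - ww ρ * V) / V := by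
    field_simp
  rw [e, norm_div, Complex.norm_real, Real.norm_of_nonneg hV.le]
  refine div_le_div_of_nonneg_right ((hb V hV.le).trans ?_) hV.le
  have h2 : Real.sqrt (JJ V) ≤ Real.sqrt (|C| * V) := by
    apply Real.sqrt_le_sqrt
    exact h1.trans (by have := le_abs_self C; nlinarith)
  gcongr

lemma GR_lim {δ : ℂ} (hre : δ.re = 0) :
    Tendsto (fun V : ℝ => GR δ V / V) atTop (𝓝 (if δ = 0 then 1 else 0)) := by
  by_cases h : δ = 0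
  · rw [if_pos h]
    refine tendsto_const_nhds.congr' ?_
    filter_upwards [eventually_gt_atTop (0:ℝ)] with V hV
    have hV' : (V : ℂ) ≠ 0 := by exact_mod_cast hV.ne'
    rw [h, GR_zero hV.le, div_self hV']
  · rw [if_neg h, tendsto_zero_iff_norm_tendsto_zero]
    have h2 : Tendsto (fun V : ℝ => (2 / ‖δ‖) * V⁻¹) atTop (𝓝 0) := by
      simpa using (tendsto_inv_atTop_zero (𝕜 := ℝ)).const_mul (2 / ‖δ‖)
    refine squeeze_zero' (Eventually.of_forall fun V => norm_nonneg _) ?_ h2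
    filter_upwards [eventually_gt_atTop (0:ℝ)] with V hV
    rw [norm_div, Complex.norm_real, Real.norm_of_nonneg hV.le, div_eq_mul_inv]
    gcongr
    exact GR_bound h hre hV.le

/-- convergence of the mean square distance -/
theorem dist_lim {S : ℝ} (hS : Tendsto (fun V : ℝ => JJ V / V) atTop (𝓝 S)) (Z : Finset ℂ)
    (hZ : ∀ ρ ∈ Z, ρ.re = 1 / 2 ∧ riemannZeta ρ = 0 ∧ deriv riemannZeta ρ ≠ 0) :
    Tendsto (mn fun v => ‖((ft v : ℝ) : ℂ) - ∑ ρ ∈ Z, ww ρ * ee ρ v‖ ^ 2) atTop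
      (𝓝 (S - ∑ ρ ∈ Z, ‖ww ρ‖ ^ 2)) := by
  classical
  have hC : ∀ᶠ V in atTop, JJ V ≤ (S + 1) * V := by
    filter_upwards [hS.eventually (gt_mem_nhds (lt_add_one S)), eventually_gt_atTop (0:ℝ)] with V h1 hV
    rw [div_lt_iff₀ hV] at h1
    exact h1.le
  have h1 : Tendsto (fun V : ℝ => ∑ ρ ∈ Z, (starRingEnd ℂ) (ww ρ) * (PP ρ V / V)) atTop
      (𝓝 (∑ ρ ∈ Z, (starRingEnd ℂ) (ww ρ) * ww ρ)) :=
    tendsto_finsetSum _ fun ρ hρ => (PP_lim hC (hZ ρ hρ).1 (hZ ρ hρ).2.1 (hZ ρ hρ).2.2).const_mul _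
  have h2 : Tendsto (fun V : ℝ => ∑ ρ ∈ Z, ∑ ρ' ∈ Z, ww ρ * (starRingEnd ℂ) (ww ρ') * (GR (ρ - ρ') V / V))
      atTop (𝓝 (∑ ρ ∈ Z, ∑ ρ' ∈ Z, ww ρ * (starRingEnd ℂ) (ww ρ') * (if ρ - ρ' = 0 then 1 else 0))) := by
    refine tendsto_finsetSum _ fun ρ hρ => tendsto_finsetSum _ fun ρ' hρ' => ?_
    refine (GR_lim ?_).const_mul _
    rw [Complex.sub_re, (hZ ρ hρ).1, (hZ ρ' hρ').1, sub_self]
  have h3 : Tendsto (fun V : ℝ => JJ V / V - 2 * (∑ ρ ∈ Z, (starRingEnd ℂ) (ww ρ) * (PP ρ V / V)).re +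
      (∑ ρ ∈ Z, ∑ ρ' ∈ Z, ww ρ * (starRingEnd ℂ) (ww ρ') * (GR (ρ - ρ') V / V)).re) atTop
      (𝓝 (S - 2 * (∑ ρ ∈ Z, (starRingEnd ℂ) (ww ρ) * ww ρ).re +
        (∑ ρ ∈ Z, ∑ ρ' ∈ Z, ww ρ * (starRingEnd ℂ) (ww ρ') * (if ρ - ρ' = 0 then 1 else 0)).re)) :=
    (hS.sub (((Complex.continuous_re.tendsto _).comp h1).const_mul 2)).add
      ((Complex.continuous_re.tendsto _).comp h2)
  have hsq : ∀ ρ : ℂ, (starRingEnd ℂ) (ww ρ) * ww ρ = ((‖ww ρ‖ ^ 2 : ℝ) : ℂ) := by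
    intro ρ
    rw [← Complex.normSq_eq_conj_mul_self, Complex.normSq_eq_norm_sq]
  have e1 : (∑ ρ ∈ Z, (starRingEnd ℂ) (ww ρ) * ww ρ).re = ∑ ρ ∈ Z, ‖ww ρ‖ ^ 2 := by
    rw [Complex.re_sum]
    refine Finset.sum_congr rfl fun ρ _ => ?_
    rw [hsq, Complex.ofReal_re]
  have e2 : (∑ ρ ∈ Z, ∑ ρ' ∈ Z, ww ρ * (starRingEnd ℂ) (ww ρ') * (if ρ - ρ' = 0 then 1 else 0)).re =
      ∑ ρ ∈ Z, ‖ww ρ‖ ^ 2 := by
    rw [Complex.re_sum]
    refine Finset.sum_congr rfl fun ρ hρ => ?_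
    have e3 : ∑ ρ' ∈ Z, ww ρ * (starRingEnd ℂ) (ww ρ') * (if ρ - ρ' = 0 then 1 else 0) =
        ww ρ * (starRingEnd ℂ) (ww ρ) := by
      rw [Finset.sum_eq_single ρ]
      · simp
      · intro ρ' _ hne
        rw [if_neg (sub_ne_zero.2 (Ne.symm hne)), mul_zero]
      · exact fun h => absurd hρ h
    rw [e3, mul_comm, hsq, Complex.ofReal_re]
  rw [e1, e2] at h3
  have e4 : S - 2 * (∑ ρ ∈ Z, ‖ww ρ‖ ^ 2) + ∑ ρ ∈ Z, ‖ww ρ‖ ^ 2 = S - ∑ ρ ∈ Z, ‖ww ρ‖ ^ 2 := by ring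
  rw [e4] at h3
  refine h3.congr' ?_
  filter_upwards [eventually_gt_atTop (0:ℝ)] with V hV
  have hV' : (V : ℂ) ≠ 0 := by exact_mod_cast hV.ne'
  have h4 := bessel_eq Z (fun ρ hρ => (hZ ρ hρ).1) ww V
  unfold mn
  rw [intervalIntegral.integral_of_le hV.le]
  have h5 : ∫ v in Ioc 0 V, ‖((ft v : ℝ) : ℂ) - ∑ ρ ∈ Z, ww ρ * ee ρ v‖ ^ 2 =
      ∫ s in Ioc 0 V, Complex.normSq (m0 s - ∑ ρ ∈ Z, ww ρ * ee ρ s) := by
    refine integral_congr_ae (Eventually.of_forall fun s => ?_)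
    simp only
    rw [Complex.normSq_eq_norm_sq, m0_ft]
  rw [h5, h4, add_div, sub_div]
  have h6 : (∑ ρ ∈ Z, (starRingEnd ℂ) (ww ρ) * (PP ρ V / V)) =
      (∑ ρ ∈ Z, (starRingEnd ℂ) (ww ρ) * PP ρ V) / ((V : ℝ) : ℂ) := by
    rw [Finset.sum_div]
    exact Finset.sum_congr rfl fun ρ _ => by ring
  have h7 : (∑ ρ ∈ Z, ∑ ρ' ∈ Z, ww ρ * (starRingEnd ℂ) (ww ρ') * (GR (ρ - ρ') V / V)) =
      (∑ ρ ∈ Z, ∑ ρ' ∈ Z, ww ρ * (starRingEnd ℂ) (ww ρ') * GR (ρ - ρ') V) / ((V : ℝ) : ℂ) := by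
    rw [Finset.sum_div]
    refine Finset.sum_congr rfl fun ρ _ => ?_
    rw [Finset.sum_div]
    exact Finset.sum_congr rfl fun ρ' _ => by ring
  rw [h6, h7, Complex.div_ofReal_re, Complex.div_ofReal_re]
  ring

/-- the partial Fourier sums are trigonometric polynomials -/
lemma sum_trig (Z : Finset ℂ) (hZ : ∀ ρ ∈ Z, ρ.re = 1 / 2) (v : ℝ) :
    ∑ ρ ∈ Z, ww ρ * ee ρ v = trig (Z.image Complex.im) (fun l => ww (⟨1 / 2, l⟩ : ℂ)) v := by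
  have heq : ∀ ρ ∈ Z, (⟨1 / 2, ρ.im⟩ : ℂ) = ρ := fun ρ hρ => by
    apply Complex.ext
    · simp [hZ ρ hρ]
    · rfl
  unfold trig
  rw [Finset.sum_image]
  · refine Finset.sum_congr rfl fun ρ hρ => ?_
    simp only
    rw [heq ρ hρ]
    congr 1
    unfold ee
    congr 1
    have h1 : ρ = 1 / 2 + Complex.I * ρ.im := by
      apply Complex.ext
      · simp [hZ ρ hρ]
      · simp
    nth_rewrite 1 [h1]
    ring
  · intro ρ hρ ρ' hρ' h
    have h' : ρ.im = ρ'.im := h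
    rw [← heq ρ hρ, ← heq ρ' hρ', h']

lemma mean_trig_zero {K : Finset ℝ} (h0 : (0:ℝ) ∉ K) (a : ℝ → ℂ) :
    Tendsto (mn (rt K a)) atTop (𝓝 0) := by
  have h1 : Tendsto (fun V : ℝ => ∑ l ∈ K, a l * ((∫ v in (0:ℝ)..V, ex l v) / (V : ℂ))) atTop
      (𝓝 (∑ l ∈ K, a l * (if l = 0 then 1 else 0))) :=
    tendsto_finsetSum _ fun l _ => (mean_ex l).const_mul _
  have h2 : ∑ l ∈ K, a l * (if l = 0 then (1:ℂ) else 0) = 0 := by
    refine Finset.sum_eq_zero fun l hl => ?_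
    rw [if_neg (by rintro rfl; exact h0 hl), mul_zero]
  rw [h2] at h1
  have h3 := (Complex.continuous_re.tendsto _).comp h1
  rw [Complex.zero_re] at h3
  refine h3.congr fun V => ?_
  simp only [Function.comp]
  have h4 : ∑ l ∈ K, a l * ((∫ v in (0:ℝ)..V, ex l v) / (V : ℂ)) =
      (∫ v in (0:ℝ)..V, trig K a v) / (V : ℂ) := by
    have h5 : ∫ v in (0:ℝ)..V, trig K a v = ∑ l ∈ K, a l * ∫ v in (0:ℝ)..V, ex l v := by
      unfold trig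
      rw [intervalIntegral.integral_finsetSum]
      · refine Finset.sum_congr rfl fun l _ => ?_
        rw [intervalIntegral.integral_const_mul]
        rfl
      · intro l _
        exact (continuous_const.mul (ex_cont l)).intervalIntegrable _ _
    rw [h5, Finset.sum_div]
    exact Finset.sum_congr rfl fun l _ => by ring
  rw [h4, Complex.div_ofReal_re]
  unfold mn
  congr 1
  exact (intervalIntegral.intervalIntegral_re (𝕜 := ℂ) (f := trig K a) (μ := volume) (a := 0) (b := V)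
    ((trig_cont K a).intervalIntegrable _ _)).symm

end Pool.Agent.TH223.AP
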