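import Pool.Agent.TH223.AP.A3
import Pool.Agent.W120.WM.Lim

/-! The weak Mertens hypothesis and almost periodicity: assembly. -/

set_option autoImplicit false

open MeasureTheory Filter Topology Set

namespace Pool.Agent.TH223.AP

open Pool.Agent.H295R2 (JJ JW ww ee zetaSup)
open Pool.Agent.W120.WM (ZC msq msq_eq NT)

/-- the approximations by frequencies different from `0` -/
def B20 (f : ℝ → ℝ) : Prop := ∀ ε : ℝ, 0 < ε → ∃ (K : Finset ℝ) (a : ℝ → ℂ), (0:ℝ) ∉ K ∧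
  ∀ᶠ V : ℝ in atTop, mn (fun v => ‖((f v : ℝ) : ℂ) - trig K a v‖ ^ 2) V ≤ ε

lemma B20.b2 {f : ℝ → ℝ} (h : B20 f) : B2 f := fun ε hε => by
  obtain ⟨K, a, -, h1⟩ := h ε hε
  exact ⟨K, a, h1⟩

lemma B20.mean_zero {f : ℝ → ℝ} (h : B20 f) (hf : LB f) : Tendsto (mn f) atTop (𝓝 0) := by
  rw [Metric.tendsto_nhds]
  intro ε hε
  obtain ⟨η, hη⟩ : ∃ η : ℝ, η = ε / 4 := ⟨_, rfl⟩
  have hη0 : 0 < η := by rw [hη]; positivity
  obtain ⟨K, a, h0, h1⟩ := h (η ^ 2) (by positivity)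
  have h3 := Metric.tendsto_nhds.1 (mean_trig_zero h0 a) (ε / 4) (by positivity)
  filter_upwards [h1, h3, eventually_gt_atTop (0:ℝ)] with V h4 h5 hV
  have hsub := hf.normsq (trig_cont K a)
  have hk : LB (fun v => (1 / (2 * η)) * ‖((f v : ℝ) : ℂ) - trig K a v‖ ^ 2 + η / 2) :=
    (hsub.const_mul _).add (LB.of_cont continuous_const)
  have h6 := abs_mn_sub_le (g := f) (h := rt K a) hV (hf.ii hV.le)
    ((rt_cont K a).intervalIntegrable _ _) (hk.ii hV.le) (fun v _ => by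
      have h7 : |f v - rt K a v| ≤ ‖((f v : ℝ) : ℂ) - trig K a v‖ := by
        have h8 := Complex.abs_re_le_norm (((f v : ℝ) : ℂ) - trig K a v)
        rwa [Complex.sub_re, Complex.ofReal_re] at h8
      refine h7.trans ?_
      obtain ⟨x, hx⟩ : ∃ x : ℝ, x = ‖((f v : ℝ) : ℂ) - trig K a v‖ := ⟨_, rfl⟩
      rw [← hx]
      have h9 : (1 / (2 * η) * x ^ 2 + η / 2) - x = (x - η) ^ 2 / (2 * η) := by
        field_simp
        ring
      have h10 : 0 ≤ (x - η) ^ 2 / (2 * η) := by positivity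
      linarith)
  rw [mn_add ((hsub.const_mul _).ii hV.le) (continuous_const.intervalIntegrable _ _), mn_const_mul,
    mn_const _ hV] at h6
  have h7 : 1 / (2 * η) * mn (fun v => ‖((f v : ℝ) : ℂ) - trig K a v‖ ^ 2) V ≤ 1 / (2 * η) * η ^ 2 := by
    gcongr
  have h8 : 1 / (2 * η) * η ^ 2 + η / 2 = η := by
    field_simp
    ring
  rw [Real.dist_eq, sub_zero] at h5 ⊢
  have h9 : |mn f V - mn (rt K a) V| ≤ ε / 4 := by
    rw [← hη]
    linarith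
  rw [abs_lt] at h5 ⊢
  rw [abs_le] at h9
  constructor <;> linarith [h9.1, h9.2, h5.1, h5.2]

/-- `ζ(1/2) ≠ 0` -/
lemma zeta_half_ne : riemannZeta (1 / 2 : ℂ) ≠ 0 := by
  have h0 : (0:ℝ) < 1 / 2 := by norm_num
  have hne : (((1 / 2 : ℝ)) : ℂ) ≠ 1 := by
    intro h
    have : (1 / 2 : ℝ) = 1 := by exact_mod_cast h
    norm_num at this
  have e0 := Pool.Agent.H307R2.zeta_eq (N := 1) le_rfl (s := ((1 / 2 : ℝ) : ℂ)) (by simp) hne
  have e1 : Pool.Agent.H307R2.TM 1 Pool.Agent.H307R2.Ez ((1 / 2 : ℝ) : ℂ) =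
      ((∫ t in Ioi ((1 : ℕ) : ℝ), (-(Int.fract t)) * t ^ (-((1 / 2 : ℝ) + 1)) : ℝ) : ℂ) := by
    unfold Pool.Agent.H307R2.TM
    rw [← integral_complex_ofReal]
    refine MeasureTheory.setIntegral_congr_fun measurableSet_Ioi fun t ht => ?_
    have ht' : (1 : ℝ) < t := by simpa using ht
    have ht0 : 0 ≤ t := by linarith
    simp only [Pool.Agent.H307R2.Ez]
    rw [Complex.ofReal_mul, Complex.ofReal_cpow ht0]
    push_cast
    rfl
  have e2 : (∫ t in Ioi ((1 : ℕ) : ℝ), (-(Int.fract t)) * t ^ (-((1 / 2 : ℝ) + 1)) : ℝ) ≤ 0 := by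
    apply MeasureTheory.setIntegral_nonpos measurableSet_Ioi
    intro t ht
    have ht' : (1 : ℝ) < t := by simpa using ht
    have : 0 ≤ Int.fract t * t ^ (-((1 / 2 : ℝ) + 1)) :=
      mul_nonneg (Int.fract_nonneg t) (Real.rpow_nonneg (by linarith) _)
    linarith
  rw [e1] at e0
  set I := (∫ t in Ioi ((1 : ℕ) : ℝ), (-(Int.fract t)) * t ^ (-((1 / 2 : ℝ) + 1)) : ℝ) with hI
  have e3 : riemannZeta (1 / 2 : ℂ) = ((1 + 1 / ((1 / 2 : ℝ) - 1) + (1 / 2) * I : ℝ) : ℂ) := by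
    have e4 : (((1 / 2 : ℝ)) : ℂ) = (1 / 2 : ℂ) := by push_cast; rfl
    rw [e4] at e0
    rw [e0]
    push_cast
    simp
  rw [e3]
  intro h
  have h2 : (1 + 1 / ((1 / 2 : ℝ) - 1) + (1 / 2) * I : ℝ) = 0 := by exact_mod_cast h
  norm_num at h2
  linarith

lemma ww_sq (ρ : ℂ) : ‖ww ρ‖ ^ 2 = 1 / ‖ρ * deriv riemannZeta ρ‖ ^ 2 := by
  unfold ww
  rw [norm_div, norm_one, div_pow, one_pow]

lemma JJ_eq_JW (V : ℝ) : JJ V = JW 0 V := rfl

/-- the sum over the zeros -/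
noncomputable def SS : ℝ := ∑' ρ : NT, 1 / ‖(ρ : ℂ) * deriv riemannZeta ρ‖ ^ 2

lemma JJ_lim (hZ : ZC) : Tendsto (fun V : ℝ => JJ V / V) atTop (𝓝 SS) :=
  Pool.Agent.W120.WM.limit hZ

theorem dist_lim' (hZ : ZC) (Z : Finset ℂ) (h : ∀ ρ ∈ Z, ρ ∈ NT) :
    Tendsto (mn fun v => ‖((ft v : ℝ) : ℂ) - ∑ ρ ∈ Z, ww ρ * ee ρ v‖ ^ 2) atTop
      (𝓝 (SS - ∑ ρ ∈ Z, 1 / ‖ρ * deriv riemannZeta ρ‖ ^ 2)) := by
  have h1 := dist_lim (JJ_lim hZ) Z (fun ρ hρ => ⟨(hZ.1 ρ (h ρ hρ)).1, (h ρ hρ).1, (hZ.1 ρ (h ρ hρ)).2⟩)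
  simp only [ww_sq] at h1
  exact h1

theorem ft_B20 (hZ : ZC) : B20 ft := by
  classical
  intro ε hε
  have h1 : ∃ u : Finset NT, SS - ∑ ρ ∈ u, 1 / ‖(ρ : ℂ) * deriv riemannZeta ρ‖ ^ 2 < ε := by
    have h2 := hZ.2.hasSum
    have h3 := (Metric.tendsto_nhds.1 h2 ε hε).exists
    obtain ⟨u, hu⟩ := h3
    refine ⟨u, ?_⟩
    rw [Real.dist_eq, abs_lt] at hu
    have h4 := hu.1
    unfold SS
    linarith
  obtain ⟨u, hu⟩ := h1
  obtain ⟨Z, hZdef⟩ : ∃ Z : Finset ℂ, Z = u.map (Function.Embedding.subtype _) := ⟨_, rfl⟩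
  have hZN : ∀ ρ ∈ Z, ρ ∈ NT := by
    intro ρ hρ
    rw [hZdef, Finset.mem_map] at hρ
    obtain ⟨ρ', -, rfl⟩ := hρ
    exact ρ'.2
  have hre : ∀ ρ ∈ Z, ρ.re = 1 / 2 := fun ρ hρ => (hZ.1 ρ (hZN ρ hρ)).1
  have hsum : ∑ ρ ∈ Z, 1 / ‖ρ * deriv riemannZeta ρ‖ ^ 2 =
      ∑ ρ ∈ u, 1 / ‖(ρ : ℂ) * deriv riemannZeta ρ‖ ^ 2 := by
    rw [hZdef, Finset.sum_map]
    rfl
  have h2 := dist_lim' hZ Z hZN
  rw [hsum] at h2
  refine ⟨Z.image Complex.im, fun l => ww (⟨1 / 2, l⟩ : ℂ), ?_, ?_⟩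
  · intro h0
    rw [Finset.mem_image] at h0
    obtain ⟨ρ, hρ, him⟩ := h0
    have h3 : ρ = 1 / 2 := by
      apply Complex.ext
      · simp [hre ρ hρ]
      · simp [him]
    have h4 := (hZN ρ hρ).1
    rw [h3] at h4
    exact zeta_half_ne h4
  · filter_upwards [h2.eventually (gt_mem_nhds hu)] with V hV
    have h3 : (fun v => ‖((ft v : ℝ) : ℂ) - trig (Z.image Complex.im) (fun l => ww (⟨1 / 2, l⟩ : ℂ)) v‖ ^ 2) =
        fun v => ‖((ft v : ℝ) : ℂ) - ∑ ρ ∈ Z, ww ρ * ee ρ v‖ ^ 2 := by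
      funext v
      rw [sum_trig Z hre v]
    rw [h3]
    exact hV.le

/-- a bound for the mean square for arbitrarily large `V` gives the condition on the zeros -/
theorem ZC_of_freq {C : ℝ} (h : ∃ᶠ V : ℝ in atTop, mn (fun v => ft v ^ 2) V ≤ C) : ZC := by
  refine (Pool.Agent.W120.WM.sparse_ZC (δ := 1) (C := C) one_pos le_rfl ?_).1
  have h1 : ∃ᶠ V : ℝ in atTop, msq (Real.exp V ^ ((1 : ℝ) - 1)) (Real.exp V) ≤
      C * Real.log (Real.exp V) := by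
    refine (h.and_eventually (eventually_gt_atTop (0 : ℝ))).mono fun V hV => ?_
    obtain ⟨h2, h3⟩ := hV
    rw [mn_sq h3.le, div_le_iff₀ h3] at h2
    rw [sub_self, Real.rpow_zero, Real.log_exp, msq_eq one_pos (Real.one_le_exp h3.le),
      Real.log_one, Real.log_exp, ← JJ_eq_JW]
    exact h2
  exact Real.tendsto_exp_atTop.frequently
    (p := fun x : ℝ => msq (x ^ ((1 : ℝ) - 1)) x ≤ C * Real.log x) h1

theorem ZC_of_B2 (h : B2 ft) : ZC := by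
  obtain ⟨C, -, hC⟩ := h.second ft_LB
  refine ZC_of_freq (C := C) (Eventually.frequently ?_)
  filter_upwards [eventually_ge_atTop (1:ℝ)] with V hV
  exact hC V hV

/-- the weak Mertens hypothesis -/
def WM : Prop := ∃ C : ℝ, ∀ x : ℝ, 2 ≤ x → msq 1 x ≤ C * Real.log x

theorem WM_iff_ZC : WM ↔ ZC := by
  obtain ⟨K, -, -, h⟩ := Pool.Agent.W120.WM.final2 Pool.Agent.W120.WM.sharpT
  exact h.out 0 2

lemma exists_zero : ∃ ρ : ℂ, ρ ∈ NT := by
  obtain ⟨ρ, h1, h2, h3, -, -⟩ := H332.FL.exists_zero_re_ge_half 0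
  exact ⟨ρ, h1, by linarith, h3⟩

lemma SS_pos (hZ : ZC) : 0 < SS := by
  obtain ⟨ρ, hρ⟩ := exists_zero
  have h1 : 0 < 1 / ‖(ρ : ℂ) * deriv riemannZeta ρ‖ ^ 2 := by
    have h2 : ρ ≠ 0 := by
      rintro rfl
      have := hρ.2.1
      simp at this
    have h3 := (hZ.1 ρ hρ).2
    have : 0 < ‖ρ * deriv riemannZeta ρ‖ := norm_pos_iff.2 (mul_ne_zero h2 h3)
    positivity
  exact hZ.2.tsum_pos (fun ρ => by positivity) ⟨ρ, hρ⟩ h1

/-- all the information on the limit law -/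
theorem law_facts (hZ : ZC) : ∃ μ : ProbabilityMeasure ℝ,
    (∀ φ : ℝ → ℝ, Continuous φ → (∃ C : ℝ, ∀ t, |φ t| ≤ C * (1 + t ^ 2)) →
      Integrable φ (μ : Measure ℝ) ∧ Tendsto (mn fun v => φ (ft v)) atTop (𝓝 (∫ t, φ t ∂(μ : Measure ℝ)))) ∧
    ∫ t, t ∂(μ : Measure ℝ) = 0 ∧ ∫ t, t ^ 2 ∂(μ : Measure ℝ) = SS := by
  have hB := ft_B20 hZ
  obtain ⟨μ, hμ⟩ := exists_law hB.b2 ft_LB
  have h1 : ∀ φ : ℝ → ℝ, Continuous φ → (∃ C : ℝ, ∀ t, |φ t| ≤ C * (1 + t ^ 2)) →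
      Integrable φ (μ : Measure ℝ) ∧
        Tendsto (mn fun v => φ (ft v)) atTop (𝓝 (∫ t, φ t ∂(μ : Measure ℝ))) :=
    fun φ hφ ⟨C, hC⟩ => limit_quad hB.b2 hμ hφ hC
  refine ⟨μ, h1, ?_, ?_⟩
  · have h2 := (h1 (fun t => t) continuous_id ⟨1, fun t => by
      rw [one_mul]
      rcases le_total |t| 1 with h | h
      · nlinarith [sq_nonneg t]
      · rw [← sq_abs t]
        nlinarith⟩).2
    exact tendsto_nhds_unique h2 (hB.mean_zero ft_LB)
  · have h2 := (h1 (fun t => t ^ 2) (by fun_prop) ⟨1, fun t => by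
      rw [one_mul, abs_of_nonneg (sq_nonneg t)]
      linarith⟩).2
    refine tendsto_nhds_unique h2 ((JJ_lim hZ).congr' ?_)
    filter_upwards [eventually_ge_atTop (0:ℝ)] with V hV
    rw [mn_sq hV]

/-- a mean zero law with positive variance charges both half lines, with room -/
lemma charges {μ : ProbabilityMeasure ℝ} (hi : Integrable (fun t : ℝ => t) (μ : Measure ℝ))
    (h0 : ∫ t, t ∂(μ : Measure ℝ) = 0) (h2 : 0 < ∫ t, t ^ 2 ∂(μ : Measure ℝ)) :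
    ∃ η : ℝ, 0 < η ∧ 0 < ∫ t, min (max (t - η) 0) 1 ∂(μ : Measure ℝ) := by
  by_contra hcon
  push Not at hcon
  have hint : ∀ η : ℝ, Integrable (fun t : ℝ => min (max (t - η) 0) 1) (μ : Measure ℝ) := by
    intro η
    refine Integrable.mono' (g := fun _ => (1:ℝ)) (integrable_const _)
      (Continuous.measurable (by fun_prop)).aestronglyMeasurable (Eventually.of_forall fun t => ?_)
    rw [Real.norm_eq_abs, abs_of_nonneg (le_min (le_max_right _ _) zero_le_one)]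
    exact min_le_right _ _
  have h3 : ∀ n : ℕ, ∀ᵐ t ∂(μ : Measure ℝ), t ≤ 1 / ((n:ℝ) + 1) := by
    intro n
    have h4 := hcon (1 / ((n:ℝ) + 1)) (by positivity)
    have h5 : ∫ t, min (max (t - 1 / ((n:ℝ) + 1)) 0) 1 ∂(μ : Measure ℝ) = 0 :=
      le_antisymm h4 (integral_nonneg fun t => le_min (le_max_right _ _) zero_le_one)
    have h5' := (integral_eq_zero_iff_of_nonneg
      (f := fun t : ℝ => min (max (t - 1 / ((n:ℝ) + 1)) 0) 1)
      (fun t => le_min (le_max_right _ _) zero_le_one) (hint _)).1 h5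
    refine h5'.mono fun t ht => ?_
    by_contra h6
    push Not at h6
    have h7 : 0 < min (max (t - 1 / ((n:ℝ) + 1)) 0) 1 :=
      lt_min (lt_max_of_lt_left (by linarith)) one_pos
    simp only [Pi.zero_apply] at ht
    linarith
  have h4 : ∀ᵐ t ∂(μ : Measure ℝ), t ≤ 0 := by
    filter_upwards [ae_all_iff.2 h3] with t ht
    refine le_of_forall_pos_le_add fun ε hε => ?_
    obtain ⟨n, hn⟩ := exists_nat_one_div_lt hε
    linarith [ht n]
  have h5 : (fun t : ℝ => -t) =ᵐ[(μ : Measure ℝ)] 0 := by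
    refine (integral_eq_zero_iff_of_nonneg_ae (f := fun t : ℝ => -t)
      (h4.mono fun t ht => by simpa using ht) hi.neg).1 ?_
    rw [integral_neg, h0, neg_zero]
  have h6 : ∫ t, t ^ 2 ∂(μ : Measure ℝ) = 0 := by
    rw [integral_congr_ae (g := fun _ => (0:ℝ))]
    · simp
    · refine h5.mono fun t ht => ?_
      have : t = 0 := by simpa using ht
      simp [this]
  linarith

end Pool.Agent.TH223.AP
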