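import Pool.Agent.TH223.AP.A4

/-! The weak Mertens hypothesis and almost periodicity: the final statement. -/

set_option autoImplicit false

open MeasureTheory Filter Topology Set

namespace Pool.Agent.TH223.AP

open Pool.Agent.H295R2 (JJ JW ww ee zetaSup)
open Pool.Agent.W120.WM (ZC msq msq_eq NT)

/-- the limit law -/
def IsLaw (μ : ProbabilityMeasure ℝ) : Prop := ∀ φ : ℝ → ℝ, Continuous φ →
  (∃ C : ℝ, ∀ t, |φ t| ≤ C * (1 + t ^ 2)) → Integrable φ (μ : Measure ℝ) ∧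
    Tendsto (mn fun v => φ (ft v)) atTop (𝓝 (∫ t, φ t ∂(μ : Measure ℝ)))

lemma half_min_cont (η : ℝ) : Continuous fun t : ℝ => min (max (t - η) 0) 1 := by fun_prop

lemma half_min_bd (η t : ℝ) : |min (max (t - η) 0) 1| ≤ 1 * (1 + t ^ 2) := by
  rw [abs_of_nonneg (le_min (le_max_right _ _) zero_le_one)]
  have := min_le_right (max (t - η) 0) 1
  nlinarith [sq_nonneg t]

/-- the mean of an indicator from below -/
lemma ind_low {g : ℝ → ℝ} (hg : LB g) {η V : ℝ} (hV : 0 < V) :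
    mn (fun v => min (max (g v - η) 0) 1) V ≤ mn (Set.indicator {v | η < g v} 1) V := by
  refine mn_mono hV ((hg.comp (half_min_cont η)).ii hV.le) ?_ (fun v _ => ?_)
  · refine iInt (B := 1) ?_ hV.le (fun v _ => ?_)
    · exact measurable_one.indicator (measurableSet_lt measurable_const hg.meas)
    · by_cases h : η < g v
      · rw [Set.indicator_of_mem (show v ∈ {v | η < g v} from h)]
        simp
      · rw [Set.indicator_of_notMem (show v ∉ {v | η < g v} from h)]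
        simp
  · by_cases h : η < g v
    · rw [Set.indicator_of_mem (show v ∈ {v | η < g v} from h)]
      exact min_le_right _ _
    · rw [Set.indicator_of_notMem (show v ∉ {v | η < g v} from h), max_eq_right (by linarith)]
      exact min_le_left _ _

lemma ind_abs (s : Set ℝ) (v : ℝ) : |Set.indicator s (1 : ℝ → ℝ) v| ≤ 1 := by
  by_cases h : v ∈ s
  · rw [Set.indicator_of_mem h]
    simp
  · rw [Set.indicator_of_notMem h]
    simp

lemma id_bd (t : ℝ) : |t| ≤ 1 * (1 + t ^ 2) := by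
  rw [one_mul]
  rcases le_total |t| 1 with h | h
  · nlinarith [sq_nonneg t]
  · rw [← sq_abs t]
    nlinarith

theorem dens {μ : ProbabilityMeasure ℝ} (h : IsLaw μ) (h0 : ∫ t, t ∂(μ : Measure ℝ) = 0)
    (h2 : 0 < ∫ t, t ^ 2 ∂(μ : Measure ℝ)) :
    ∃ η c : ℝ, 0 < η ∧ 0 < c ∧ ∀ᶠ V : ℝ in atTop,
        c ≤ mn (Set.indicator {v | η < ft v} 1) V ∧ c ≤ mn (Set.indicator {v | ft v < -η} 1) V := by
  have hi : Integrable (fun t : ℝ => t) (μ : Measure ℝ) := (h (fun t => t) continuous_id ⟨1, id_bd⟩).1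
  obtain ⟨η1, hη1, hp1⟩ := charges hi h0 h2
  -- the reflected measure
  obtain ⟨ν, hν, hνi⟩ : ∃ ν : ProbabilityMeasure ℝ, (∀ φ : ℝ → ℝ, Continuous φ →
      ∫ t, φ t ∂(ν : Measure ℝ) = ∫ t, φ (-t) ∂(μ : Measure ℝ)) ∧
      Integrable (fun t : ℝ => t) (ν : Measure ℝ) := by
    refine ⟨μ.map (f := fun t : ℝ => -t) measurable_neg.aemeasurable, fun φ hφ => ?_, ?_⟩
    · rw [ProbabilityMeasure.toMeasure_map]
      rw [integral_map measurable_neg.aemeasurable hφ.measurable.aestronglyMeasurable]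
    · rw [ProbabilityMeasure.toMeasure_map]
      exact (integrable_map_measure (f := fun t : ℝ => -t) (g := fun t : ℝ => t)
        (Continuous.measurable (by fun_prop)).aestronglyMeasurable measurable_neg.aemeasurable).2 hi.neg
  obtain ⟨η2, hη2, hp2⟩ := charges (μ := ν) hνi (by
    rw [hν (fun t => t) continuous_id, integral_neg, h0, neg_zero]) (by
    rw [hν _ (by fun_prop)]
    simpa using h2)
  rw [hν _ (half_min_cont η2)] at hp2
  obtain ⟨η, hη⟩ : ∃ η : ℝ, η = min η1 η2 := ⟨_, rfl⟩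
  obtain ⟨c1, hc1⟩ : ∃ c : ℝ, c = ∫ t, min (max (t - η1) 0) 1 ∂(μ : Measure ℝ) := ⟨_, rfl⟩
  obtain ⟨c2, hc2⟩ : ∃ c : ℝ, c = ∫ t, min (max (-t - η2) 0) 1 ∂(μ : Measure ℝ) := ⟨_, rfl⟩
  rw [← hc1] at hp1
  rw [← hc2] at hp2
  have l1 := (h _ (half_min_cont η1) ⟨1, half_min_bd η1⟩).2
  have l2 := (h (fun t => min (max (-t - η2) 0) 1) ((half_min_cont η2).comp continuous_neg)
    ⟨1, fun t => by simpa using half_min_bd η2 (-t)⟩).2
  rw [← hc1] at l1
  rw [← hc2] at l2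
  refine ⟨η, min (c1 / 2) (c2 / 2), by rw [hη]; positivity, by positivity, ?_⟩
  filter_upwards [l1.eventually (lt_mem_nhds (half_lt_self hp1)),
    l2.eventually (lt_mem_nhds (half_lt_self hp2)), eventually_gt_atTop (0:ℝ)] with V h3 h4 hV
  constructor
  · refine (min_le_left _ _).trans (h3.le.trans ?_)
    refine (ind_low ft_LB hV).trans ?_
    refine mn_mono hV ?_ ?_ (fun v _ => ?_)
    · refine iInt (B := 1) ?_ hV.le (fun v _ => ?_)
      · exact measurable_one.indicator (measurableSet_lt measurable_const ft_LB.meas)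
      · exact ind_abs _ _
    · refine iInt (B := 1) ?_ hV.le (fun v _ => ?_)
      · exact measurable_one.indicator (measurableSet_lt measurable_const ft_LB.meas)
      · exact ind_abs _ _
    · refine Set.indicator_le_indicator_of_subset (fun w hw => ?_) (fun _ => zero_le_one) v
      have h5 : η ≤ η1 := hη ▸ min_le_left _ _
      exact lt_of_le_of_lt h5 hw
  · refine (min_le_right _ _).trans (h4.le.trans ?_)
    have h5 : LB (fun v => - ft v) := ft_LB.comp (φ := fun t => -t) continuous_neg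
    refine (ind_low (g := fun v => - ft v) h5 hV).trans ?_
    refine mn_mono hV ?_ ?_ (fun v _ => ?_)
    · refine iInt (B := 1) ?_ hV.le (fun v _ => ?_)
      · exact measurable_one.indicator (measurableSet_lt measurable_const h5.meas)
      · exact ind_abs _ _
    · refine iInt (B := 1) ?_ hV.le (fun v _ => ?_)
      · exact measurable_one.indicator (measurableSet_lt ft_LB.meas measurable_const)
      · exact ind_abs _ _
    · refine Set.indicator_le_indicator_of_subset (fun w hw => ?_) (fun _ => zero_le_one) v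
      have h6 : η ≤ η2 := hη ▸ min_le_right _ _
      have h7 : η2 < - ft w := hw
      show ft w < -η
      linarith

theorem main :
    (WM ↔ B2 ft) ∧ (WM ↔ ∃ μ : ProbabilityMeasure ℝ, IsLaw μ) ∧
    (WM →
      (∀ Z : Finset ℂ, (∀ ρ ∈ Z, ρ ∈ NT) →
        Tendsto (mn fun v => ‖((ft v : ℝ) : ℂ) -
            ∑ ρ ∈ Z, Complex.exp ((ρ - 1 / 2) * v) / (ρ * deriv riemannZeta ρ)‖ ^ 2) atTop
          (𝓝 ((∑' ρ : NT, 1 / ‖(ρ : ℂ) * deriv riemannZeta ρ‖ ^ 2) -
            ∑ ρ ∈ Z, 1 / ‖ρ * deriv riemannZeta ρ‖ ^ 2))) ∧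
      (∃ μ : ProbabilityMeasure ℝ, IsLaw μ ∧ ∫ t, t ∂(μ : Measure ℝ) = 0 ∧
        ∫ t, t ^ 2 ∂(μ : Measure ℝ) = ∑' ρ : NT, 1 / ‖(ρ : ℂ) * deriv riemannZeta ρ‖ ^ 2) ∧
      ∃ η c : ℝ, 0 < η ∧ 0 < c ∧ ∀ᶠ V : ℝ in atTop,
        c ≤ mn (Set.indicator {v | η < ft v} 1) V ∧ c ≤ mn (Set.indicator {v | ft v < -η} 1) V) := by
  refine ⟨⟨fun h => (ft_B20 (WM_iff_ZC.1 h)).b2, fun h => WM_iff_ZC.2 (ZC_of_B2 h)⟩, ⟨fun h => ?_, ?_⟩,
    fun h => ?_⟩
  · obtain ⟨μ, h1, -, -⟩ := law_facts (WM_iff_ZC.1 h)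
    exact ⟨μ, h1⟩
  · rintro ⟨μ, hμ⟩
    have h2 := (hμ (fun t => t ^ 2) (by fun_prop) ⟨1, fun t => by
      rw [one_mul, abs_of_nonneg (sq_nonneg t)]
      linarith⟩).2
    refine WM_iff_ZC.2 (ZC_of_freq (C := (∫ t, t ^ 2 ∂(μ : Measure ℝ)) + 1) (Eventually.frequently ?_))
    exact (h2.eventually (gt_mem_nhds (lt_add_one _))).mono fun V hV => hV.le
  · have hZ := WM_iff_ZC.1 h
    obtain ⟨μ, h1, h2, h3⟩ := law_facts hZ
    refine ⟨fun Z hZN => ?_, ⟨μ, h1, h2, h3⟩, dens h1 h2 (by rw [h3]; exact SS_pos hZ)⟩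
    have h4 := dist_lim' hZ Z hZN
    have h5 : (fun v => ‖((ft v : ℝ) : ℂ) -
        ∑ ρ ∈ Z, Complex.exp ((ρ - 1 / 2) * v) / (ρ * deriv riemannZeta ρ)‖ ^ 2) =
        fun v : ℝ => ‖((ft v : ℝ) : ℂ) - ∑ ρ ∈ Z, ww ρ * ee ρ v‖ ^ 2 := by
      funext v
      congr 3
      refine Finset.sum_congr rfl fun ρ _ => ?_
      unfold ww ee
      ring
    rw [h5]
    exact h4

end Pool.Agent.TH223.AP
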